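import Pool.Agent.helper24.Welsh.Tool2

/-! Module SE (selection of a component) of the Welsh project. -/

set_option autoImplicit false
set_option linter.unusedSimpArgs false
set_option linter.unusedSectionVars false

namespace Pool.Agent.helper24.Welsh

open Finset Module

variable {V : Type} [AddCommGroup V] [Module (ZMod 2) V] [DecidableEq V]

theorem SE_bad {U : Submodule (ZMod 2) V} {S A A1 B1 : Finset V} (hAS : A ⊆ S)
    (hbad : ∀ C ⊆ S, sg C ∈ U → sg (C ∩ A) ∈ U) (hA1 : A1 ⊆ A) (hB1 : B1 ⊆ S \ A) (hs : sg A1 + sg B1 ∈ U) :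
    sg A1 ∈ U := by
  have hdis : Disjoint A1 B1 := by
    rw [Finset.disjoint_left]
    intro a ha hb
    exact (mem_sdiff.1 (hB1 hb)).2 (hA1 ha)
  have h := hbad (A1 ∪ B1) (union_subset (hA1.trans hAS) (hB1.trans sdiff_subset)) (by rwa [sg_union hdis])
  have e : (A1 ∪ B1) ∩ A = A1 := by
    ext z
    simp only [mem_inter, mem_union]
    constructor
    · rintro ⟨h1 | h1, h2⟩
      · exact h1
      · exact absurd h2 (mem_sdiff.1 (hB1 h1)).2
    · intro h1
      exact ⟨Or.inl h1, hA1 h1⟩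
  rwa [e] at h

/-- choose a connected component of the contraction by `U`, preserving the cocircuit hypothesis -/
theorem select [Finite V] {U W : Submodule (ZMod 2) V} {G : Finset V} {N : ℕ} (hlt : U < W)
    (hHC : ∀ H, U ≤ H → H ≤ W → H ≠ W → N ≤ 2 * (out (inn G W) H).card) :
    ∃ W', U < W' ∧ W' ≤ W ∧ Conn U (out (inn G W') U) ∧
      ∀ H, U ≤ H → H ≤ W' → H ≠ W' → N ≤ 2 * (out (inn G W') H).card := by
  classical
  have hP : ∃ n, ∃ W' R' : Submodule (ZMod 2) V, U < W' ∧ W' ≤ W ∧ U ≤ R' ∧ R' ≤ W ∧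
      (∀ g ∈ inn G W, g ∈ W' ∨ g ∈ R') ∧ W' ⊓ R' ≤ U ∧ finrank (ZMod 2) W' = n :=
    ⟨_, W, U, hlt, le_refl _, le_refl _, hlt.le, fun g hg => Or.inl (mem_inn.1 hg).2, inf_le_right, rfl⟩
  obtain ⟨W', R', hUW', hW'W, hUR, hRW, hcov, hinf, hrank⟩ := Nat.find_spec hP
  refine ⟨W', hUW', hW'W, ?_, ?_⟩
  · by_contra hcon
    unfold Conn at hcon
    push Not at hcon
    obtain ⟨A, hAS, hAne, hAneS, hbad⟩ := hcon
    set S := out (inn G W') U with hSdef
    have hSW : ∀ x ∈ S, x ∈ W' := fun x hx => (mem_inn.1 (mem_out.1 hx).1).2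
    have hSU : ∀ x ∈ S, x ∉ U := fun x hx => (mem_out.1 hx).2
    obtain ⟨a, ha⟩ := hAne
    obtain ⟨b, hbS, hbA⟩ : ∃ b ∈ S, b ∉ A := by
      by_contra h
      push Not at h
      exact hAneS (Subset.antisymm hAS h)
    have hAW : cl U A ≤ W' := cl_le.2 ⟨hUW'.le, fun x hx => hSW x (hAS hx)⟩
    have hBW : cl U (S \ A) ≤ W' := cl_le.2 ⟨hUW'.le, fun x hx => hSW x (sdiff_subset hx)⟩
    have hbn : b ∉ cl U A := by
      intro hb
      obtain ⟨A', hA', hs⟩ := mem_cl.1 hb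
      have h1 : sg A' ∈ U := by
        refine SE_bad hAS hbad hA' (B1 := {b}) (by simpa using ⟨hbS, hbA⟩) ?_
        rw [sg_singleton, add_comm]; exact hs
      exact hSU b hbS ((U.add_mem_iff_left h1).1 hs)
    have hlt2 : cl U A < W' := lt_of_le_of_ne hAW (fun h => hbn (by rw [h]; exact hSW b hbS))
    have hfr := finrank_lt hlt2
    rw [hrank] at hfr
    refine Nat.find_min hP hfr ⟨cl U A, R' ⊔ cl U (S \ A), ?_, hAW.trans hW'W, hUR.trans le_sup_left,
      sup_le hRW (hBW.trans hW'W), ?_, ?_, rfl⟩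
    · exact lt_of_le_of_ne (le_cl U A) (fun h => hSU a (hAS ha) (by rw [h]; exact self_mem_cl ha))
    · intro g hg
      rcases hcov g hg with h | h
      · by_cases hgU : g ∈ U
        · exact Or.inr ((hUR.trans le_sup_left) hgU)
        · have hgS : g ∈ S := mem_out.2 ⟨mem_inn.2 ⟨(mem_inn.1 hg).1, h⟩, hgU⟩
          by_cases hgA : g ∈ A
          · exact Or.inl (self_mem_cl hgA)
          · exact Or.inr ((le_sup_right : cl U (S \ A) ≤ _) (self_mem_cl (mem_sdiff.2 ⟨hgS, hgA⟩)))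
      · exact Or.inr ((le_sup_left : R' ≤ _) h)
    · rintro w ⟨hw1, hw2⟩
      obtain ⟨r, hr, b', hb', rfl⟩ := Submodule.mem_sup.1 hw2
      have hrW : r ∈ W' := (W'.add_mem_iff_left (hBW hb')).1 (hAW hw1)
      have hrU : r ∈ U := hinf ⟨hrW, hr⟩
      obtain ⟨A1, hA1, hs1⟩ := mem_cl.1 hw1
      obtain ⟨B1, hB1, hs2⟩ := mem_cl.1 hb'
      have h3 : sg A1 + sg B1 ∈ U := by
        have h4 := U.add_mem (U.add_mem hs1 hs2) hrU
        have e : sg A1 + sg B1 = r + b' + sg A1 + (b' + sg B1) + r := by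
          simp only [add_comm, add_left_comm, add_assoc, dbl, add_cancel2, add_zero, zero_add]
        rwa [e]
      have h5 := SE_bad hAS hbad hA1 hB1 h3
      exact (U.add_mem_iff_left h5).1 hs1
  · intro H hUH hHW hne
    refine (hHC (H ⊔ R') (hUH.trans le_sup_left) (sup_le (hHW.trans hW'W) hRW) ?_).trans ?_
    · intro h
      apply hne
      apply le_antisymm hHW
      intro x hx
      have hx2 : x ∈ H ⊔ R' := by rw [h]; exact hW'W hx
      obtain ⟨y, hy, r, hr, rfl⟩ := Submodule.mem_sup.1 hx2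
      have hrW : r ∈ W' := (W'.add_mem_iff_right (hHW hy)).1 hx
      exact H.add_mem hy (hUH (hinf ⟨hrW, hr⟩))
    · apply Nat.mul_le_mul_left
      apply card_le_card
      intro g hg
      obtain ⟨h1, h2⟩ := mem_out.1 hg
      have h3 : g ∉ R' := fun h => h2 ((le_sup_right : R' ≤ _) h)
      refine mem_out.2 ⟨mem_inn.2 ⟨(mem_inn.1 h1).1, (hcov g h1).resolve_right h3⟩, fun h => h2 ((le_sup_left : H ≤ _) h)⟩

end Pool.Agent.helper24.Welsh
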