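import Pool.Agent.helper24.Welsh.Tool2

/-! Module CY (cyclic chain lemma) of the Welsh project. -/

set_option autoImplicit false
set_option linter.unusedSimpArgs false
set_option linter.unusedSectionVars false

namespace Pool.Agent.helper24.Welsh

open Finset Module

variable {V : Type} [AddCommGroup V] [Module (ZMod 2) V] [DecidableEq V]

/-- the sum of a subset of `Z` only depends on its trace on `P`, modulo `Z \ P` -/
theorem CY_red {U : Submodule (ZMod 2) V} {Z P S : Finset V} (hS : S ⊆ Z) :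
    sg S + sg (S ∩ P) ∈ cl U (Z \ P) := by
  have h := sg_inter_sdiff S P
  have e : sg S + sg (S ∩ P) = sg (S \ P) := by
    rw [← h]
    simp only [add_comm, add_left_comm, dbl, add_cancel2, add_zero, zero_add]
  rw [e]
  exact sg_mem_cl (sdiff_subset_sdiff hS (Subset.refl _))

/-- proper nonempty subsets of `P` are not in the span of `Z \ P` -/
theorem CY_ni {U : Submodule (ZMod 2) V} {Z P A : Finset V} (hZ : Circ U Z) (hP : P ⊆ Z) (hA : A ⊆ P)
    (hne : A.Nonempty) {o : V} (ho : o ∈ P) (hoA : o ∉ A) : sg A ∉ cl U (Z \ P) := by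
  intro h
  obtain ⟨B, hB, hs⟩ := mem_cl.1 h
  have hdis : Disjoint A B := by
    rw [Finset.disjoint_left]
    intro a ha hb
    exact (mem_sdiff.1 (hB hb)).2 (hA ha)
  rw [← sg_union hdis] at hs
  have hsub : A ∪ B ⊆ Z := union_subset (hA.trans hP) (hB.trans sdiff_subset)
  rcases hZ.sub_eq hsub hs with h0 | h0
  · obtain ⟨a, ha⟩ := hne
    have : a ∈ A ∪ B := mem_union_left _ ha
    rw [h0] at this
    exact absurd this (notMem_empty a)
  · have : o ∈ A ∪ B := by rw [h0]; exact hP ho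
    rcases mem_union.1 this with h' | h'
    · exact hoA h'
    · exact (mem_sdiff.1 (hB h')).2 ho

theorem CY_zm (i : ZMod 2) : i = 0 ∨ i = 1 := by
  revert i; decide

/-- independence of four vectors, the fourth one outside a larger space -/
theorem CY_ind4 {W H : Submodule (ZMod 2) V} (hWH : W ≤ H) {p q s x : V} (hx : x ∉ H) (hpH : p ∈ H) (hqH : q ∈ H)
    (hsH : s ∈ H) (hp : p ∉ W) (hq : q ∉ W) (hs : s ∉ W) (hpq : p + q ∉ W) (hps : p + s ∉ W) (hqs : q + s ∉ W)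
    (hpqs : p + q + s ∉ W) :
    ∀ i j k l : ZMod 2, i • p + j • q + k • s + l • x ∈ W → i = 0 ∧ j = 0 ∧ k = 0 ∧ l = 0 := by
  intro i j k l h
  have hl : l = 0 := by
    rcases CY_zm l with h0 | h0
    · exact h0
    · exfalso
      apply hx
      have h' : i • p + j • q + k • s ∈ H :=
        H.add_mem (H.add_mem (H.smul_mem _ hpH) (H.smul_mem _ hqH)) (H.smul_mem _ hsH)
      rw [h0, one_smul] at h
      exact (H.add_mem_iff_right h').1 (hWH h)
  subst hl
  rw [zero_smul, add_zero] at h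
  rcases CY_zm i with hi | hi <;> rcases CY_zm j with hj | hj <;> rcases CY_zm k with hk | hk <;>
    subst hi hj hk <;> simp only [zero_smul, one_smul, zero_add, add_zero] at h <;>
    first
      | exact ⟨rfl, rfl, rfl, rfl⟩
      | (exfalso; first | exact hp h | exact hq h | exact hs h | exact hpq h | exact hps h | exact hqs h | exact hpqs h)

/-- independence of three vectors, the third one outside a larger space -/
theorem CY_ind3 {W H : Submodule (ZMod 2) V} (hWH : W ≤ H) {p q x : V} (hx : x ∉ H) (hpH : p ∈ H) (hqH : q ∈ H)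
    (hp : p ∉ W) (hq : q ∉ W) (hpq : p + q ∉ W) :
    ∀ i j k : ZMod 2, i • p + j • q + k • x ∈ W → i = 0 ∧ j = 0 ∧ k = 0 := by
  intro i j l h
  have hl : l = 0 := by
    rcases CY_zm l with h0 | h0
    · exact h0
    · exfalso
      apply hx
      have h' : i • p + j • q ∈ H :=
        H.add_mem (H.smul_mem _ hpH) (H.smul_mem _ hqH)
      rw [h0, one_smul] at h
      exact (H.add_mem_iff_right h').1 (hWH h)
  subst hl
  rw [zero_smul, add_zero] at h
  rcases CY_zm i with hi | hi <;> rcases CY_zm j with hj | hj <;>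
    subst hi hj <;> simp only [zero_smul, one_smul, zero_add, add_zero] at h <;>
    first
      | exact ⟨rfl, rfl, rfl⟩
      | (exfalso; first | exact hp h | exact hq h | exact hpq h)

theorem CY_rel {U : Submodule (ZMod 2) V} {Z P S Q : Finset V} {y : V} (hS : S ⊆ Z) (h : y + sg S ∈ U)
    (hQ : S ∩ P = Q) : y + sg Q ∈ cl U (Z \ P) := by
  have h1 := CY_red (U := U) (P := P) hS
  rw [hQ] at h1
  have h2 := (cl U (Z \ P)).add_mem (le_cl U _ h) h1
  have e : y + sg S + (sg S + sg Q) = y + sg Q := by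
    rw [add_assoc, add_cancel2]
  rwa [e] at h2

theorem CY_case1 {U : Submodule (ZMod 2) V} {G Z : Finset V} (hreg : Reg U G) (hZG : Z ⊆ G) (hZ : Circ U Z)
    {x x' x₁ : V} (hx : x ∈ G) (hx' : x' ∈ G) (hx₁ : x₁ ∈ G) (h1 : x₁ ∉ cl U Z) {S T : Finset V} (hS : S ⊆ Z)
    (hT : T ⊆ Z) (hxS : x + x₁ + sg S ∈ U) (hxT : x' + x₁ + sg T ∈ U) {p q s o : V} (hp : p ∈ S ∩ T)
    (hq : q ∈ S) (hq' : q ∉ T) (hs : s ∈ T) (hs' : s ∉ S) (ho : o ∈ Z) (hoS : o ∉ S) (hoT : o ∉ T) : False := by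
  obtain ⟨hpS, hpT⟩ := mem_inter.1 hp
  have npq : p ≠ q := by rintro rfl; exact hq' hpT
  have nps : p ≠ s := by rintro rfl; exact hs' hpS
  have npo : p ≠ o := by rintro rfl; exact hoS hpS
  have nqs : q ≠ s := by rintro rfl; exact hs' hq
  have nqo : q ≠ o := by rintro rfl; exact hoS hq
  have nso : s ≠ o := by rintro rfl; exact hoT hs
  set P : Finset V := {p, q, s, o} with hPdef
  have hPZ : P ⊆ Z := by
    intro z hz
    simp only [hPdef, mem_insert, mem_singleton] at hz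
    rcases hz with rfl | rfl | rfl | rfl
    · exact hS hpS
    · exact hS hq
    · exact hT hs
    · exact ho
  have eS : S ∩ P = {p, q} := by
    ext z
    simp only [hPdef, mem_inter, mem_insert, mem_singleton]
    constructor
    · rintro ⟨hz, rfl | rfl | rfl | rfl⟩ <;> simp_all
    · rintro (rfl | rfl) <;> simp_all
  have eT : T ∩ P = {p, s} := by
    ext z
    simp only [hPdef, mem_inter, mem_insert, mem_singleton]
    constructor
    · rintro ⟨hz, rfl | rfl | rfl | rfl⟩ <;> simp_all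
    · rintro (rfl | rfl) <;> simp_all
  have eZ : Z ∩ P = P := inter_eq_right.2 hPZ
  have r1 := CY_rel hS hxS eS
  have r2 := CY_rel hT hxT eT
  have r0 : (0 : V) + sg P ∈ cl U (Z \ P) := CY_rel (Subset.refl Z) (by rw [zero_add]; exact hZ.2.1) eZ
  rw [sg_pair npq] at r1
  rw [sg_pair nps] at r2
  have eP : sg P = p + (q + (s + o)) := by
    rw [hPdef, sg_insert (by simp [npq, nps, npo]), sg_insert (by simp [nqs, nqo]), sg_pair nso]
  rw [eP, zero_add] at r0
  have hcl : cl U (Z \ P) ≤ cl U Z := cl_mono sdiff_subset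
  have inH : ∀ z ∈ Z, z ∈ cl U Z := fun z hz => self_mem_cl hz
  have hoP : o ∈ P := by simp [hPdef]
  have ni1 : ∀ z ∈ P, z ≠ o → z ∉ cl U (Z \ P) := by
    intro z hz hzo
    have := CY_ni hZ hPZ (A := {z}) (by simpa using hz) (singleton_nonempty z) hoP (by simpa using hzo.symm)
    rwa [sg_singleton] at this
  have ni2 : ∀ z ∈ P, ∀ w ∈ P, z ≠ w → z ≠ o → w ≠ o → z + w ∉ cl U (Z \ P) := by
    intro z hz w hw hzw hzo hwo
    have := CY_ni hZ hPZ (A := {z, w}) (by intro y hy; simp only [mem_insert, mem_singleton] at hy; rcases hy with rfl | rfl <;> assumption)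
      (insert_nonempty _ _) hoP (by simp only [mem_insert, mem_singleton, not_or]; exact ⟨hzo.symm, hwo.symm⟩)
    rwa [sg_pair hzw] at this
  have ni3 : p + q + s ∉ cl U (Z \ P) := by
    have := CY_ni hZ hPZ (A := {p, q, s}) (by intro y hy; simp only [hPdef, mem_insert, mem_singleton] at hy ⊢; tauto)
      (insert_nonempty _ _) hoP (by simp only [mem_insert, mem_singleton, not_or]; exact ⟨npo.symm, nqo.symm, nso.symm⟩)
    rwa [sg_insert (by simp [npq, nps]), sg_pair nqs, ← add_assoc] at this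
  have hpP : p ∈ P := by simp [hPdef]
  have hqP : q ∈ P := by simp [hPdef]
  have hsP : s ∈ P := by simp [hPdef]
  refine (hreg (Z \ P) (sdiff_subset.trans hZG)).2 ⟨p, hZG (hS hpS), q, hZG (hS hq), s, hZG (hT hs), x₁, hx₁, o, hZG ho,
    x, hx, x', hx', ?_, ?_, ?_, ?_⟩
  · exact CY_ind4 hcl h1 (inH _ (hS hpS)) (inH _ (hS hq)) (inH _ (hT hs)) (ni1 p hpP npo) (ni1 q hqP nqo) (ni1 s hsP nso)
      (ni2 p hpP q hqP npq npo nqo) (ni2 p hpP s hsP nps npo nso) (ni2 q hqP s hsP nqs nqo nso) ni3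
  · have e : p + q + s + o = p + (q + (s + o)) := by abel
    rw [e]; exact r0
  · have e : x₁ + p + q + x = x + x₁ + (p + q) := by abel
    rw [e]; exact r1
  · have e : x₁ + p + s + x' = x' + x₁ + (p + s) := by abel
    rw [e]; exact r2

theorem CY_case2a {U : Submodule (ZMod 2) V} {G Z : Finset V} (hreg : Reg U G) (hZG : Z ⊆ G) (hZ : Circ U Z)
    {x x' x2 x₁ : V} (hx : x ∈ G) (hx' : x' ∈ G) (hx2 : x2 ∈ G) (hx₁ : x₁ ∈ G) (h1 : x₁ ∉ cl U Z) {S T A : Finset V}
    (hS : S ⊆ Z) (hT : T ⊆ Z) (hA : A ⊆ Z) (hxS : x + x₁ + sg S ∈ U) (hxT : x' + x₁ + sg T ∈ U)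
    (hxA : x2 + x₁ + sg A ∈ U) (hAS : A ⊆ S) (hAT : A ⊆ T) {a p q : V} (ha : a ∈ A)
    (hp : p ∈ S) (hp' : p ∉ T) (hq : q ∈ T) (hq' : q ∉ S) : False := by
  have nap : a ≠ p := by rintro rfl; exact hp' (hAT ha)
  have naq : a ≠ q := by rintro rfl; exact hq' (hAS ha)
  have npq : p ≠ q := by rintro rfl; exact hq' hp
  have hpA : p ∉ A := fun h => hp' (hAT h)
  have hqA : q ∉ A := fun h => hq' (hAS h)
  have haS := hAS ha
  have haT := hAT ha
  set P : Finset V := {a, p, q} with hPdef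
  have hPZ : P ⊆ Z := by
    intro z hz
    simp only [hPdef, mem_insert, mem_singleton] at hz
    rcases hz with rfl | rfl | rfl
    · exact hA ha
    · exact hS hp
    · exact hT hq
  have eS : S ∩ P = {a, p} := by
    ext z
    simp only [hPdef, mem_inter, mem_insert, mem_singleton]
    constructor
    · rintro ⟨hz, rfl | rfl | rfl⟩ <;> simp_all
    · rintro (rfl | rfl) <;> simp_all
  have eT : T ∩ P = {a, q} := by
    ext z
    simp only [hPdef, mem_inter, mem_insert, mem_singleton]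
    constructor
    · rintro ⟨hz, rfl | rfl | rfl⟩ <;> simp_all
    · rintro (rfl | rfl) <;> simp_all
  have eA : A ∩ P = {a} := by
    ext z
    simp only [hPdef, mem_inter, mem_insert, mem_singleton]
    constructor
    · rintro ⟨hz, rfl | rfl | rfl⟩ <;> simp_all
    · rintro rfl; simp_all
  have eZ : Z ∩ P = P := inter_eq_right.2 hPZ
  have r1 := CY_rel hS hxS eS
  have r2 := CY_rel hT hxT eT
  have r3 := CY_rel hA hxA eA
  have r0 : (0 : V) + sg P ∈ cl U (Z \ P) := CY_rel (Subset.refl Z) (by rw [zero_add]; exact hZ.2.1) eZ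
  rw [sg_pair nap] at r1
  rw [sg_pair naq] at r2
  rw [sg_singleton] at r3
  have eP : sg P = a + (p + q) := by
    rw [hPdef, sg_insert (by simp [nap, naq]), sg_pair npq]
  rw [eP, zero_add] at r0
  have hcl : cl U (Z \ P) ≤ cl U Z := cl_mono sdiff_subset
  have inH : ∀ z ∈ Z, z ∈ cl U Z := fun z hz => self_mem_cl hz
  have haP : a ∈ P := by simp [hPdef]
  have hpP : p ∈ P := by simp [hPdef]
  have hqP : q ∈ P := by simp [hPdef]
  have ni1 : ∀ z ∈ P, z ≠ q → z ∉ cl U (Z \ P) := by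
    intro z hz hzo
    have := CY_ni hZ hPZ (A := {z}) (by simpa using hz) (singleton_nonempty z) hqP (by simpa using hzo.symm)
    rwa [sg_singleton] at this
  have ni2 : ∀ z ∈ P, ∀ w ∈ P, z ≠ w → z ≠ q → w ≠ q → z + w ∉ cl U (Z \ P) := by
    intro z hz w hw hzw hzo hwo
    have := CY_ni hZ hPZ (A := {z, w}) (by intro y hy; simp only [mem_insert, mem_singleton] at hy; rcases hy with rfl | rfl <;> assumption)
      (insert_nonempty _ _) hqP (by simp only [mem_insert, mem_singleton, not_or]; exact ⟨hzo.symm, hwo.symm⟩)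
    rwa [sg_pair hzw] at this
  refine (hreg (Z \ P) (sdiff_subset.trans hZG)).1 ⟨a, hZG (hA ha), p, hZG (hS hp), x₁, hx₁, q, hZG (hT hq), x2, hx2,
    x', hx', x, hx, ?_, ?_, ?_, ?_, ?_⟩
  · exact CY_ind3 hcl h1 (inH _ (hA ha)) (inH _ (hS hp)) (ni1 a haP naq) (ni1 p hpP npq)
      (ni2 a haP p hpP nap naq npq)
  · have e : a + p + q = a + (p + q) := by abel
    rw [e]; exact r0
  · have e : a + x₁ + x2 = x2 + x₁ + a := by abel
    rw [e]; exact r3
  · have h := (cl U (Z \ P)).add_mem r2 r0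
    have e : p + x₁ + x' = x' + x₁ + (a + q) + (a + (p + q)) := by
      simp only [add_comm, add_left_comm, add_assoc, dbl, add_cancel2, add_zero, zero_add]
    rw [e]; exact h
  · have e : a + p + x₁ + x = x + x₁ + (a + p) := by abel
    rw [e]; exact r1

theorem cyc {U : Submodule (ZMod 2) V} {G Z D : Finset V} (hreg : Reg U G) (hZG : Z ⊆ G) (hDG : D ⊆ G) (hZ : Circ U Z)
    (h1 : ∀ x ∈ D, x ∉ cl U Z) (h2 : ∀ x ∈ D, ∀ y ∈ D, x + y ∈ cl U Z) {x₁ : V} (hx₁ : x₁ ∈ D) :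
    ∃ S : V → Finset V,
      (∀ x ∈ D, x + x₁ ∉ U → S x ⊆ Z ∧ (S x).Nonempty ∧ S x ≠ Z ∧ x + x₁ + sg (S x) ∈ U) ∧
      (∀ x ∈ D, ∀ y ∈ D, x + x₁ ∉ U → y + x₁ ∉ U → S x ⊆ S y ∨ S y ⊆ S x) := by
  classical
  by_cases hall : ∀ x ∈ D, x + x₁ ∈ U
  · exact ⟨fun _ => ∅, fun x hx hn => absurd (hall x hx) hn, fun x hx _ _ hn _ => absurd (hall x hx) hn⟩
  push Not at hall
  obtain ⟨x0, hx0, hx0U⟩ := hall
  have hside : ∀ x ∈ D, ∃ A ⊆ Z, x + x₁ + sg A ∈ U := fun x hx => mem_cl.1 (h2 x hx x₁ hx₁)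
  have hnon : ∀ x, x + x₁ ∉ U → ∀ A ⊆ Z, x + x₁ + sg A ∈ U → A.Nonempty ∧ A ≠ Z := by
    intro x hx A _ h
    constructor
    · rw [nonempty_iff_ne_empty]
      rintro rfl
      rw [sg_empty, add_zero] at h
      exact hx h
    · rintro rfl
      exact hx ((U.add_mem_iff_left hZ.2.1).1 h)
  have hcompl : ∀ x, ∀ A ⊆ Z, x + x₁ + sg A ∈ U → x + x₁ + sg (Z \ A) ∈ U := by
    intro x A hA h
    rw [sg_sdiff hA]
    have := U.add_mem h hZ.2.1
    have e : x + x₁ + (sg Z + sg A) = x + x₁ + sg A + sg Z := by abel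
    rwa [e]
  have hP : ∃ n, ∃ x ∈ D, ∃ A ⊆ Z, x + x₁ ∉ U ∧ x + x₁ + sg A ∈ U ∧ A.card = n := by
    obtain ⟨A, hA, h⟩ := hside x0 hx0
    exact ⟨_, x0, hx0, A, hA, hx0U, h, rfl⟩
  obtain ⟨x2, hx2, A, hAZ, hx2U, hA, hcard⟩ := Nat.find_spec hP
  have hmin : ∀ x ∈ D, ∀ B ⊆ Z, x + x₁ ∉ U → x + x₁ + sg B ∈ U → A.card ≤ B.card := by
    intro x hx B hB hxU h
    rw [hcard]
    exact Nat.find_min' hP ⟨x, hx, B, hB, hxU, h, rfl⟩
  obtain ⟨zs, hzs⟩ := (hnon x2 hx2U A hAZ hA).1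
  have hex : ∀ x, x ∈ D → x + x₁ ∉ U → ∃ S ⊆ Z, x + x₁ + sg S ∈ U ∧ zs ∈ S := by
    intro x hx _
    obtain ⟨B, hB, h⟩ := hside x hx
    by_cases hz : zs ∈ B
    · exact ⟨B, hB, h, hz⟩
    · exact ⟨Z \ B, sdiff_subset, hcompl x B hB h, mem_sdiff.2 ⟨hAZ hzs, hz⟩⟩
  choose! S hSZ hS hzS using hex
  have hAS : ∀ x, x ∈ D → x + x₁ ∉ U → A ⊆ S x := by
    intro x hx hxU
    by_contra hc
    obtain ⟨q, hqA, hqS⟩ := not_subset.1 hc
    by_cases hsub : S x ⊆ A
    · have := eq_of_subset_of_card_le hsub (hmin x hx _ (hSZ x hx hxU) hxU (hS x hx hxU))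
      exact hc this.symm.subset
    · obtain ⟨s, hsS, hsA⟩ := not_subset.1 hsub
      by_cases hun : ∃ o ∈ Z, o ∉ A ∧ o ∉ S x
      · obtain ⟨o, hoZ, hoA, hoS⟩ := hun
        exact CY_case1 hreg hZG hZ (hDG hx2) (hDG hx) (hDG hx₁) (h1 x₁ hx₁) hAZ (hSZ x hx hxU) hA (hS x hx hxU)
          (mem_inter.2 ⟨hzs, hzS x hx hxU⟩) hqA hqS hsS hsA hoZ hoA hoS
      · push Not at hun
        have hsub2 : Z \ S x ⊆ A := by
          intro o ho
          obtain ⟨hoZ, hoS⟩ := mem_sdiff.1 ho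
          by_contra hoA
          exact hoS (hun o hoZ hoA)
        have := eq_of_subset_of_card_le hsub2 (hmin x hx _ sdiff_subset hxU (hcompl x _ (hSZ x hx hxU) (hS x hx hxU)))
        have hz := hzs
        rw [← this] at hz
        exact (mem_sdiff.1 hz).2 (hzS x hx hxU)
  refine ⟨S, fun x hx hxU => ⟨hSZ x hx hxU, (hnon x hxU _ (hSZ x hx hxU) (hS x hx hxU)).1,
    (hnon x hxU _ (hSZ x hx hxU) (hS x hx hxU)).2, hS x hx hxU⟩, ?_⟩
  intro x hx y hy hxU hyU
  by_contra hc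
  rw [not_or] at hc
  obtain ⟨p, hpS, hpT⟩ := not_subset.1 hc.1
  obtain ⟨q, hqT, hqS⟩ := not_subset.1 hc.2
  by_cases hun : ∃ o ∈ Z, o ∉ S x ∧ o ∉ S y
  · obtain ⟨o, hoZ, hoS, hoT⟩ := hun
    exact CY_case1 hreg hZG hZ (hDG hx) (hDG hy) (hDG hx₁) (h1 x₁ hx₁) (hSZ x hx hxU) (hSZ y hy hyU) (hS x hx hxU)
      (hS y hy hyU) (mem_inter.2 ⟨hzS x hx hxU, hzS y hy hyU⟩) hpS hpT hqT hqS hoZ hoS hoT
  · exact CY_case2a hreg hZG hZ (hDG hx) (hDG hy) (hDG hx2) (hDG hx₁) (h1 x₁ hx₁) (hSZ x hx hxU) (hSZ y hy hyU) hAZ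
      (hS x hx hxU) (hS y hy hyU) hA (hAS x hx hxU) (hAS y hy hyU) hzs hpS hpT hqT hqS

end Pool.Agent.helper24.Welsh
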